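import Pool.Agent.Helper58.CA.ConvStep
import Pool.Agent.Helper17.CT.Defs

set_option autoImplicit false

/-!
The converse direction of Cantoni's conjecture: a graph obtained from the complete graph on four
vertices by triangle replacements has exactly three Hamilton cycles.
-/

namespace Pool.Agent.Helper58.CA
open SimpleGraph Pool.Agent.Helper17.CT

/-- Edge sets of Hamilton cycles are the edge sets of spanning connected 2-regular subgraphs. -/
theorem hc_eq {V : Type} [Fintype V] [DecidableEq V] [Nonempty V] (G : SimpleGraph V) :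
    {s : Set (Sym2 V) | ∃ (u : V) (p : G.Walk u u),
      p.IsHamiltonianCycle ∧ s = {e : Sym2 V | e ∈ p.edges}} = SimpleGraph.edgeSet '' HS G := by
  ext s
  constructor
  · rintro ⟨u, p, hp, rfl⟩
    refine ⟨p.toSubgraph.spanningCoe, ⟨Subgraph.spanningCoe_le _, ?_, ?_⟩, ?_⟩
    · intro v
      exact hp.isCycle.ncard_neighborSet_toSubgraph_eq_two (hp.mem_support v)
    · have key : ∀ v, p.toSubgraph.spanningCoe.Reachable u v := by
        intro v
        have hv := hp.mem_support v
        refine ⟨(p.takeUntil v hv).transfer _ ?_⟩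
        intro e he
        have h1 := p.edges_takeUntil_subset_edges hv he
        have h2 := (p.mem_edges_toSubgraph).2 h1
        induction e using Sym2.ind with
        | _ x y => exact h2
      intro v w
      exact (key v).symm.trans (key w)
    · ext e
      induction e using Sym2.ind with
      | _ x y =>
        show p.toSubgraph.Adj x y ↔ s(x, y) ∈ p.edges
        exact Walk.adj_toSubgraph_iff_mem_edges
  · rintro ⟨H, ⟨hle, hdeg, hcon⟩, rfl⟩
    classical
    obtain ⟨v0⟩ : Nonempty V := inferInstance
    have hcyc : H.IsCycles := fun v _ => hdeg v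
    have hne : (H.neighborSet v0).Nonempty := by
      apply Set.nonempty_of_ncard_ne_zero
      rw [hdeg]; norm_num
    obtain ⟨p, hp, hverts⟩ := hcyc.exists_cycle_toSubgraph_verts_eq_connectedComponentSupp
      (c := H.connectedComponentMk v0) (v := v0) rfl hne
    have hall : ∀ w, w ∈ p.toSubgraph.verts := by
      intro w
      rw [hverts, SimpleGraph.ConnectedComponent.mem_supp_iff]
      exact SimpleGraph.ConnectedComponent.sound (hcon w v0)
    refine ⟨v0, p.mapLe hle, ?_, ?_⟩
    · rw [SimpleGraph.Walk.isHamiltonianCycle_iff_isCycle_and_support_count_tail_eq_one]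
      have hc' : (p.mapLe hle).IsCycle := hp.mapLe hle
      refine ⟨hc', fun a => ?_⟩
      apply List.count_eq_one_of_mem hc'.support_nodup
      have ha : a ∈ p.support := by
        have := hall a
        rwa [SimpleGraph.Walk.mem_verts_toSubgraph] at this
      have ha' : a ∈ (p.mapLe hle).support := by
        rw [SimpleGraph.Walk.support_mapLe_eq_support]; exact ha
      have hsup := (p.mapLe hle).cons_tail_support
      rw [← hsup, List.mem_cons] at ha'
      rcases ha' with h | h
      · rw [h]
        exact SimpleGraph.Walk.end_mem_tail_support hc'.not_nil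
      · exact h
    · ext e
      induction e using Sym2.ind with
      | _ x y =>
        rw [Set.mem_ofPred_eq, SimpleGraph.Walk.edges_mapLe_eq_edges,
          ← SimpleGraph.Walk.adj_toSubgraph_iff_mem_edges,
          hp.adj_toSubgraph_iff_of_isCycles hcyc (hall x) y]
        rfl

theorem hc_ncard {V : Type} [Fintype V] [DecidableEq V] [Nonempty V] (G : SimpleGraph V) :
    {s : Set (Sym2 V) | ∃ (u : V) (p : G.Walk u u),
      p.IsHamiltonianCycle ∧ s = {e : Sym2 V | e ∈ p.edges}}.ncard = (HS G).ncard := by
  rw [hc_eq]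
  exact Set.InjOn.ncard_image (fun _ _ _ _ h => edgeSet_injective h)

/-- Transport along an isomorphism. -/
theorem hs_iso {V W : Type} (G : SimpleGraph V) (G' : SimpleGraph W) (e : G ≃g G') :
    (HS G).ncard = (HS G').ncard := by
  have h1 : HS G = (fun K : SimpleGraph W => K.comap e) '' HS G' := by
    ext H
    constructor
    · rintro ⟨hle, hdeg, hcon⟩
      refine ⟨H.comap e.symm, ⟨?_, ?_, ?_⟩, ?_⟩
      · intro a b h
        have h' : H.Adj (e.symm a) (e.symm b) := h
        have h2 := hle h'
        exact e.symm.map_rel_iff.1 h2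
      · intro a
        have h2 : (H.comap e.symm).neighborSet a = e.symm ⁻¹' (H.neighborSet (e.symm a)) := rfl
        rw [h2, Set.ncard_preimage_of_injective_subset_range e.symm.injective
          (fun x _ => e.symm.surjective x)]
        exact hdeg _
      · intro a b
        have h2 := (SimpleGraph.Iso.comap e.symm.toEquiv H).reachable_iff (u := a) (v := b)
        exact h2.1 (hcon _ _)
      · ext a b
        show H.Adj (e.symm (e a)) (e.symm (e b)) ↔ _
        simp
    · rintro ⟨K, ⟨hle, hdeg, hcon⟩, rfl⟩
      refine ⟨?_, ?_, ?_⟩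
      · intro a b h
        have h' : K.Adj (e a) (e b) := h
        exact e.map_rel_iff.1 (hle h')
      · intro a
        have h2 : (K.comap e).neighborSet a = e ⁻¹' (K.neighborSet (e a)) := rfl
        show ((K.comap e).neighborSet a).ncard = 2
        rw [h2, Set.ncard_preimage_of_injective_subset_range e.injective
          (fun x _ => e.surjective x)]
        exact hdeg _
      · intro a b
        have h2 := (SimpleGraph.Iso.comap e.toEquiv K).reachable_iff (u := a) (v := b)
        exact h2.1 (hcon _ _)
  rw [h1]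
  apply Set.InjOn.ncard_image
  intro K _ K' _ h
  ext a b
  have h2 : (K.comap e).Adj (e.symm a) (e.symm b) ↔ (K'.comap e).Adj (e.symm a) (e.symm b) := by
    simp only at h
    rw [h]
  simpa using h2

/-- The three perfect matchings of the complete graph on four vertices. -/
def mt (i a : Fin 4) : Fin 4 := if i = 1 then ![1, 0, 3, 2] a else if i = 2 then ![2, 3, 0, 1] a
  else ![3, 2, 1, 0] a

/-- The three Hamilton cycles of the complete graph on four vertices. -/
def cy (i : Fin 4) : SimpleGraph (Fin 4) where
  Adj a b := a ≠ b ∧ b ≠ mt i a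
  symm := ⟨by
    intro a b ⟨h, h'⟩
    refine ⟨h.symm, ?_⟩
    revert a b
    revert i
    decide⟩
  loopless := ⟨fun a h => h.1 rfl⟩

instance (i : Fin 4) : DecidableRel (cy i).Adj := fun a b =>
  inferInstanceAs (Decidable (a ≠ b ∧ b ≠ mt i a))

lemma cy_mem (i : Fin 4) : cy i ∈ HS (⊤ : SimpleGraph (Fin 4)) := by
  refine ⟨le_top, ?_, ?_⟩
  · intro v
    rw [Set.ncard_eq_toFinset_card']
    revert i v
    decide
  · have key : ∀ i a b : Fin 4, a = b ∨ (cy i).Adj a b ∨ ∃ c, (cy i).Adj a c ∧ (cy i).Adj c b := by
      decide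
    intro a b
    rcases key i a b with h | h | ⟨c, h, h'⟩
    · rw [h]
    · exact h.reachable
    · exact h.reachable.trans h'.reachable

lemma hs_base : (HS (⊤ : SimpleGraph (Fin 4))).ncard = 3 := by
  rw [Set.ncard_eq_three]
  have ne : ∀ i j : Fin 4, ¬ ((cy i).Adj 0 1 ↔ (cy j).Adj 0 1) → cy i ≠ cy j := by
    intro i j h h'
    exact h (by rw [h'])
  have ne' : ∀ i j : Fin 4, ¬ ((cy i).Adj 0 2 ↔ (cy j).Adj 0 2) → cy i ≠ cy j := by
    intro i j h h'
    exact h (by rw [h'])
  refine ⟨cy 1, cy 2, cy 3, ne 1 2 (by decide), ne 1 3 (by decide), ne' 2 3 (by decide), ?_⟩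
  ext K
  simp only [Set.mem_insert_iff, Set.mem_singleton_iff]
  constructor
  · rintro ⟨-, hdeg, hcon⟩
    have d0 : TwoOf (K.Adj 0 1) (K.Adj 0 2) (K.Adj 0 3) :=
      (ncard_two_iff (K.neighborSet 0) 1 2 3 (by decide) (by decide) (by decide)
        (by intro z hz; have := hz.ne; clear hz; revert z; decide)).1 (hdeg 0)
    have d1 : TwoOf (K.Adj 1 0) (K.Adj 1 2) (K.Adj 1 3) :=
      (ncard_two_iff (K.neighborSet 1) 0 2 3 (by decide) (by decide) (by decide)
        (by intro z hz; have := hz.ne; clear hz; revert z; decide)).1 (hdeg 1)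
    have d2 : TwoOf (K.Adj 2 0) (K.Adj 2 1) (K.Adj 2 3) :=
      (ncard_two_iff (K.neighborSet 2) 0 1 3 (by decide) (by decide) (by decide)
        (by intro z hz; have := hz.ne; clear hz; revert z; decide)).1 (hdeg 2)
    have d3 : TwoOf (K.Adj 3 0) (K.Adj 3 1) (K.Adj 3 2) :=
      (ncard_two_iff (K.neighborSet 3) 0 1 2 (by decide) (by decide) (by decide)
        (by intro z hz; have := hz.ne; clear hz; revert z; decide)).1 (hdeg 3)
    rw [K.adj_comm 1 0] at d1
    rw [K.adj_comm 2 0, K.adj_comm 2 1] at d2
    rw [K.adj_comm 3 0, K.adj_comm 3 1, K.adj_comm 3 2] at d3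
    have hK : ∀ L : SimpleGraph (Fin 4), (K.Adj 0 1 ↔ L.Adj 0 1) → (K.Adj 0 2 ↔ L.Adj 0 2) →
        (K.Adj 0 3 ↔ L.Adj 0 3) → (K.Adj 1 2 ↔ L.Adj 1 2) → (K.Adj 1 3 ↔ L.Adj 1 3) →
        (K.Adj 2 3 ↔ L.Adj 2 3) → K = L := by
      intro L e01 e02 e03 e12 e13 e23
      ext a b
      have e10 := e01; rw [K.adj_comm, L.adj_comm] at e10
      have e20 := e02; rw [K.adj_comm, L.adj_comm] at e20
      have e30 := e03; rw [K.adj_comm, L.adj_comm] at e30
      have e21 := e12; rw [K.adj_comm, L.adj_comm] at e21
      have e31 := e13; rw [K.adj_comm, L.adj_comm] at e31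
      have e32 := e23; rw [K.adj_comm, L.adj_comm] at e32
      fin_cases a <;> fin_cases b <;> first | assumption | simp
    unfold TwoOf at d0 d1 d2 d3
    rcases d0 with ⟨p1, p2, p3⟩ | ⟨p1, p2, p3⟩ | ⟨p1, p2, p3⟩
    · left
      simp only [p1, p2, p3, not_true_eq_false, not_false_eq_true, true_and, false_and,
        or_false, false_or] at d1 d2 d3
      apply hK
      · exact iff_of_false p1 (by decide)
      · exact iff_of_true p2 (by decide)
      · exact iff_of_true p3 (by decide)
      · exact iff_of_true (by tauto) (by decide)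
      · exact iff_of_true (by tauto) (by decide)
      · exact iff_of_false (by tauto) (by decide)
    · right; left
      simp only [p1, p2, p3, not_true_eq_false, not_false_eq_true, true_and, false_and,
        or_false, false_or] at d1 d2 d3
      apply hK
      · exact iff_of_true p1 (by decide)
      · exact iff_of_false p2 (by decide)
      · exact iff_of_true p3 (by decide)
      · exact iff_of_true (by tauto) (by decide)
      · exact iff_of_false (by tauto) (by decide)
      · exact iff_of_true (by tauto) (by decide)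
    · right; right
      simp only [p1, p2, p3, not_true_eq_false, not_false_eq_true, true_and, false_and,
        or_false, false_or] at d1 d2 d3
      apply hK
      · exact iff_of_true p1 (by decide)
      · exact iff_of_true p2 (by decide)
      · exact iff_of_false p3 (by decide)
      · exact iff_of_false (by tauto) (by decide)
      · exact iff_of_true (by tauto) (by decide)
      · exact iff_of_true (by tauto) (by decide)
  · rintro (rfl | rfl | rfl)
    · exact cy_mem 1
    · exact cy_mem 2
    · exact cy_mem 3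

/-- The converse direction of the conjecture. -/
theorem three_of_stk {V : Type} [Fintype V] [DecidableEq V] (G : SimpleGraph V)
    (h : ∃ (n : ℕ) (Γ : ∀ k : ℕ, SimpleGraph (Fin (4 + 2 * k))),
          Γ 0 = (⊤ : SimpleGraph (Fin (4 + 2 * 0))) ∧
          (∀ (k : ℕ) (x : Fin (4 + 2 * k)), ((Γ k).neighborSet x).ncard = 3) ∧
          (∀ k : ℕ, k < n →
            ∃ (f : Fin (4 + 2 * (k + 1)) → Fin (4 + 2 * k)) (v : Fin (4 + 2 * k)),
              (f ⁻¹' ({v} : Set (Fin (4 + 2 * k)))).ncard = 3 ∧
              (∀ w : Fin (4 + 2 * k), w ≠ v →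
                (f ⁻¹' ({w} : Set (Fin (4 + 2 * k)))).ncard = 1) ∧
              (∀ x y : Fin (4 + 2 * (k + 1)),
                (Γ (k + 1)).Adj x y → f x = f y ∨ (Γ k).Adj (f x) (f y)) ∧
              (∀ x y : Fin (4 + 2 * (k + 1)),
                x ≠ y → f x = v → f y = v → (Γ (k + 1)).Adj x y) ∧
              (∀ a b : Fin (4 + 2 * k), (Γ k).Adj a b →
                ∃! e : Sym2 (Fin (4 + 2 * (k + 1))),
                  e ∈ (Γ (k + 1)).edgeSet ∧ Sym2.map f e = s(a, b))) ∧
          Nonempty (G ≃g Γ n)) :
    {s : Set (Sym2 V) | ∃ (u : V) (p : G.Walk u u),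
          p.IsHamiltonianCycle ∧ s = {e : Sym2 V | e ∈ p.edges}}.ncard = 3 := by
  obtain ⟨n, Γ, h0, h3, hstep, ⟨e⟩⟩ := h
  have hne : Nonempty V := ⟨e.symm ⟨0, by omega⟩⟩
  rw [hc_ncard, hs_iso G (Γ n) e]
  have key : ∀ k, k ≤ n → (HS (Γ k)).ncard = 3 := by
    intro k
    induction k with
    | zero =>
      intro _
      rw [h0]
      exact hs_base
    | succ k ih =>
      intro hk
      obtain ⟨f, v, a1, a2, a3, a4, a5⟩ := hstep k (by omega)
      obtain ⟨x0, x1, x2, y0, y1, y2, T⟩ := exists_ts (Γ (k + 1)) (Γ k) (h3 (k + 1)) f v a1 a2 a3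
        a4 a5
      rw [T.ncard_eq]
      exact ih (by omega)
  exact key n le_rfl

end Pool.Agent.Helper58.CA
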