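import Mathlib

set_option autoImplicit false

/-!
Hamilton cycles and triangle replacement: the number of spanning connected 2-regular subgraphs
does not change when a vertex of a cubic graph is replaced by a triangle.
-/

namespace Pool.Agent.Helper58.CA
open SimpleGraph

/-- Exactly two of three propositions hold. -/
def TwoOf (p q r : Prop) : Prop := (¬p ∧ q ∧ r) ∨ (p ∧ ¬q ∧ r) ∨ (p ∧ q ∧ ¬r)

lemma twoOf_perm {p q r : Prop} : (TwoOf r q p ↔ TwoOf p q r) ∧ (TwoOf p r q ↔ TwoOf p q r) ∧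
    (TwoOf q p r ↔ TwoOf p q r) := by
  unfold TwoOf
  by_cases hp : p <;> by_cases hq : q <;> by_cases hr : r <;> simp [hp, hq, hr]

lemma ncard_two_iff {α : Type} (S : Set α) (a b c : α) (hab : a ≠ b) (hac : a ≠ c) (hbc : b ≠ c)
    (hS : ∀ z ∈ S, z = a ∨ z = b ∨ z = c) :
    S.ncard = 2 ↔ TwoOf (a ∈ S) (b ∈ S) (c ∈ S) := by
  unfold TwoOf
  by_cases ha : a ∈ S <;> by_cases hb : b ∈ S <;> by_cases hc : c ∈ S
  · have : S = {a, b, c} := by
      ext z; simp only [Set.mem_insert_iff, Set.mem_singleton_iff]; grind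
    have h3 : S.ncard = 3 := by
      rw [this, Set.ncard_eq_three]; exact ⟨a, b, c, hab, hac, hbc, rfl⟩
    simp [ha, hb, hc, h3]
  · have : S = {a, b} := by
      ext z; simp only [Set.mem_insert_iff, Set.mem_singleton_iff]; grind
    have h3 : S.ncard = 2 := by rw [this, Set.ncard_pair hab]
    simp [ha, hb, hc, h3]
  · have : S = {a, c} := by
      ext z; simp only [Set.mem_insert_iff, Set.mem_singleton_iff]; grind
    have h3 : S.ncard = 2 := by rw [this, Set.ncard_pair hac]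
    simp [ha, hb, hc, h3]
  · have : S = {a} := by
      ext z; simp only [Set.mem_singleton_iff]; grind
    have h3 : S.ncard = 1 := by rw [this, Set.ncard_singleton]
    simp [ha, hb, hc, h3]
  · have : S = {b, c} := by
      ext z; simp only [Set.mem_insert_iff, Set.mem_singleton_iff]; grind
    have h3 : S.ncard = 2 := by rw [this, Set.ncard_pair hbc]
    simp [ha, hb, hc, h3]
  · have : S = {b} := by
      ext z; simp only [Set.mem_singleton_iff]; grind
    have h3 : S.ncard = 1 := by rw [this, Set.ncard_singleton]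
    simp [ha, hb, hc, h3]
  · have : S = {c} := by
      ext z; simp only [Set.mem_singleton_iff]; grind
    have h3 : S.ncard = 1 := by rw [this, Set.ncard_singleton]
    simp [ha, hb, hc, h3]
  · have : S = ∅ := by
      ext z; simp only [Set.mem_empty_iff_false]; grind
    have h3 : S.ncard = 0 := by rw [this, Set.ncard_empty]
    simp [ha, hb, hc, h3]

/-- Spanning connected 2-regular subgraphs. -/
def HS {V : Type} (G : SimpleGraph V) : Set (SimpleGraph V) :=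
  {H | H ≤ G ∧ (∀ v, (H.neighborSet v).ncard = 2) ∧ H.Preconnected}

/-- `f` contracts the triangle `x0 x1 x2` of `A` to the vertex `v` of `B`. -/
structure TS {V W : Type} (A : SimpleGraph V) (B : SimpleGraph W) (f : V → W) (v : W)
    (x0 x1 x2 y0 y1 y2 : V) : Prop where
  fib : ∀ z, f z = v ↔ (z = x0 ∨ z = x1 ∨ z = x2)
  n01 : x0 ≠ x1
  n02 : x0 ≠ x2
  n12 : x1 ≠ x2
  a0 : ∀ z, A.Adj x0 z ↔ (z = x1 ∨ z = x2 ∨ z = y0)
  a1 : ∀ z, A.Adj x1 z ↔ (z = x2 ∨ z = x0 ∨ z = y1)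
  a2 : ∀ z, A.Adj x2 z ↔ (z = x0 ∨ z = x1 ∨ z = y2)
  f0 : f y0 ≠ v
  f1 : f y1 ≠ v
  f2 : f y2 ≠ v
  fe : ∀ x y, A.Adj x y → f x = f y ∨ B.Adj (f x) (f y)
  nb : ∀ b, B.Adj v b ↔ (b = f y0 ∨ b = f y1 ∨ b = f y2)
  g01 : f y0 ≠ f y1
  g02 : f y0 ≠ f y2
  g12 : f y1 ≠ f y2
  inj : ∀ x y, f x = f y → f x ≠ v → x = y
  sur : ∀ a, ∃ x, f x = a
  lift : ∀ a b, B.Adj a b → ∃ x y, f x = a ∧ f y = b ∧ A.Adj x y
  uniq : ∀ x y x' y', A.Adj x y → A.Adj x' y' → f x = f x' → f y = f y' → f x ≠ f y →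
    x = x' ∧ y = y'

lemma exists_ts {V W : Type} [Finite V] (A : SimpleGraph V) (B : SimpleGraph W)
    (hA : ∀ x, (A.neighborSet x).ncard = 3) (f : V → W) (v : W)
    (hv : (f ⁻¹' ({v} : Set W)).ncard = 3)
    (hw : ∀ w : W, w ≠ v → (f ⁻¹' ({w} : Set W)).ncard = 1)
    (he : ∀ x y, A.Adj x y → f x = f y ∨ B.Adj (f x) (f y))
    (ht : ∀ x y, x ≠ y → f x = v → f y = v → A.Adj x y)
    (hl : ∀ a b : W, B.Adj a b → ∃! e : Sym2 V, e ∈ A.edgeSet ∧ Sym2.map f e = s(a, b)) :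
    ∃ x0 x1 x2 y0 y1 y2, TS A B f v x0 x1 x2 y0 y1 y2 := by
  obtain ⟨x0, x1, x2, n01, n02, n12, hfib⟩ := Set.ncard_eq_three.1 hv
  have fib : ∀ z, f z = v ↔ (z = x0 ∨ z = x1 ∨ z = x2) := by
    intro z
    have : z ∈ f ⁻¹' {v} ↔ z ∈ ({x0, x1, x2} : Set V) := by rw [hfib]
    simpa using this
  have fx0 : f x0 = v := (fib x0).2 (Or.inl rfl)
  have fx1 : f x1 = v := (fib x1).2 (Or.inr (Or.inl rfl))
  have fx2 : f x2 = v := (fib x2).2 (Or.inr (Or.inr rfl))
  -- the third neighbour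
  have third : ∀ x p q : V, p ≠ q → A.Adj x p → A.Adj x q → ∃ y, y ≠ p ∧ y ≠ q ∧ A.Adj x y ∧
      ∀ z, A.Adj x z ↔ (z = p ∨ z = q ∨ z = y) := by
    intro x p q hpq hp hq
    obtain ⟨u, w, t, nuw, nut, nwt, hN⟩ := Set.ncard_eq_three.1 (hA x)
    have hN' : ∀ z, A.Adj x z ↔ (z = u ∨ z = w ∨ z = t) := by
      intro z
      rw [← mem_neighborSet, hN]
      simp
    have h1 := (hN' p).1 hp
    have h2 := (hN' q).1 hq
    by_cases c1 : u ≠ p ∧ u ≠ q
    · exact ⟨u, c1.1, c1.2, (hN' u).2 (Or.inl rfl), fun z => by rw [hN' z]; grind⟩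
    · by_cases c2 : w ≠ p ∧ w ≠ q
      · exact ⟨w, c2.1, c2.2, (hN' w).2 (Or.inr (Or.inl rfl)), fun z => by rw [hN' z]; grind⟩
      · exact ⟨t, by grind, by grind, (hN' t).2 (Or.inr (Or.inr rfl)), fun z => by
          rw [hN' z]; grind⟩
  obtain ⟨y0, y01, y02, ay0, a0⟩ := third x0 x1 x2 n12 (ht x0 x1 n01 fx0 fx1) (ht x0 x2 n02 fx0 fx2)
  obtain ⟨y1, y12, y10, ay1, a1⟩ := third x1 x2 x0 n02.symm (ht x1 x2 n12 fx1 fx2)
    (ht x1 x0 n01.symm fx1 fx0)
  obtain ⟨y2, y20, y21, ay2, a2⟩ := third x2 x0 x1 n01 (ht x2 x0 n02.symm fx2 fx0)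
    (ht x2 x1 n12.symm fx2 fx1)
  have f0 : f y0 ≠ v := by
    rw [Ne, fib]
    rintro (h | h | h)
    · exact ay0.ne h.symm
    · exact y01 h
    · exact y02 h
  have f1 : f y1 ≠ v := by
    rw [Ne, fib]
    rintro (h | h | h)
    · exact y10 h
    · exact ay1.ne h.symm
    · exact y12 h
  have f2 : f y2 ≠ v := by
    rw [Ne, fib]
    rintro (h | h | h)
    · exact y20 h
    · exact y21 h
    · exact ay2.ne h.symm
  have uniq : ∀ x y x' y', A.Adj x y → A.Adj x' y' → f x = f x' → f y = f y' → f x ≠ f y →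
      x = x' ∧ y = y' := by
    intro x y x' y' h h' hx hy hne
    have hB : B.Adj (f x) (f y) := (he x y h).resolve_left hne
    obtain ⟨e, he1, he2⟩ := hl _ _ hB
    have e1 := he2 s(x, y) ⟨h, by simp⟩
    have e2 := he2 s(x', y') ⟨h', by simp [hx, hy]⟩
    have e3 : s(x, y) = s(x', y') := e1.trans e2.symm
    rw [Sym2.eq_iff] at e3
    rcases e3 with e3 | e3
    · exact e3
    · exact absurd (by rw [e3.1, hy]) hne
  have lift : ∀ a b, B.Adj a b → ∃ x y, f x = a ∧ f y = b ∧ A.Adj x y := by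
    intro a b hab
    obtain ⟨e, he1, -⟩ := hl a b hab
    induction e using Sym2.ind with
    | _ x y =>
      obtain ⟨h1, h2⟩ := he1
      rw [Sym2.map_mk, Sym2.eq_iff] at h2
      rcases h2 with h2 | h2
      · exact ⟨x, y, h2.1, h2.2, h1⟩
      · exact ⟨y, x, h2.2, h2.1, h1.symm⟩
  refine ⟨x0, x1, x2, y0, y1, y2, fib, n01, n02, n12, a0, a1, a2, f0, f1, f2, he, ?_, ?_, ?_, ?_,
    ?_, ?_, lift, uniq⟩
  · intro b
    constructor
    · intro h
      obtain ⟨x, y, hx, hy, hxy⟩ := lift v b h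
      have hb : b ≠ v := h.ne.symm
      have hyv : f y ≠ v := by rw [hy]; exact hb
      rcases (fib x).1 hx with rfl | rfl | rfl
      · rcases (a0 y).1 hxy with rfl | rfl | rfl
        · exact absurd fx1 hyv
        · exact absurd fx2 hyv
        · exact Or.inl hy.symm
      · rcases (a1 y).1 hxy with rfl | rfl | rfl
        · exact absurd fx2 hyv
        · exact absurd fx0 hyv
        · exact Or.inr (Or.inl hy.symm)
      · rcases (a2 y).1 hxy with rfl | rfl | rfl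
        · exact absurd fx0 hyv
        · exact absurd fx1 hyv
        · exact Or.inr (Or.inr hy.symm)
    · rintro (rfl | rfl | rfl)
      · have := he x0 y0 ay0
        rw [fx0] at this
        exact this.resolve_left f0.symm
      · have := he x1 y1 ay1
        rw [fx1] at this
        exact this.resolve_left f1.symm
      · have := he x2 y2 ay2
        rw [fx2] at this
        exact this.resolve_left f2.symm
  · intro h
    exact n01 (uniq x0 y0 x1 y1 ay0 ay1 (by rw [fx0, fx1]) h (by rw [fx0]; exact f0.symm)).1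
  · intro h
    exact n02 (uniq x0 y0 x2 y2 ay0 ay2 (by rw [fx0, fx2]) h (by rw [fx0]; exact f0.symm)).1
  · intro h
    exact n12 (uniq x1 y1 x2 y2 ay1 ay2 (by rw [fx1, fx2]) h (by rw [fx1]; exact f1.symm)).1
  · intro x y hxy hne
    obtain ⟨z, hz⟩ := Set.ncard_eq_one.1 (hw (f x) hne)
    have h1 : x ∈ f ⁻¹' {f x} := rfl
    have h2 : y ∈ f ⁻¹' {f x} := by simp [hxy]
    rw [hz, Set.mem_singleton_iff] at h1 h2
    rw [h1, h2]
  · intro a
    by_cases h : a = v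
    · exact ⟨x0, by rw [h, fx0]⟩
    · obtain ⟨z, hz⟩ := Set.ncard_eq_one.1 (hw a h)
      have h1 : z ∈ f ⁻¹' {a} := by rw [hz]; rfl
      exact ⟨z, h1⟩

namespace TS
variable {V W : Type} {A : SimpleGraph V} {B : SimpleGraph W} {f : V → W} {v : W}
    {x0 x1 x2 y0 y1 y2 : V} (T : TS A B f v x0 x1 x2 y0 y1 y2)

/-- The image of a subgraph. -/
def dn (f : V → W) (K : SimpleGraph V) : SimpleGraph W where
  Adj a b := a ≠ b ∧ ∃ x y, f x = a ∧ f y = b ∧ K.Adj x y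
  symm := ⟨by
    rintro a b ⟨h, x, y, hx, hy, hxy⟩
    exact ⟨h.symm, y, x, hy, hx, hxy.symm⟩⟩
  loopless := ⟨by
    rintro a ⟨h, -⟩
    exact h rfl⟩

/-- The inner edges of the lifted subgraph. -/
def Inn (v : W) (f : V → W) (H : SimpleGraph W) (x0 x1 x2 y0 y1 y2 : V) (x y : V) : Prop :=
  (H.Adj v (f y0) ∧ ((x = x1 ∧ y = x2) ∨ (x = x2 ∧ y = x1))) ∨
  (H.Adj v (f y1) ∧ ((x = x2 ∧ y = x0) ∨ (x = x0 ∧ y = x2))) ∨
  (H.Adj v (f y2) ∧ ((x = x0 ∧ y = x1) ∨ (x = x1 ∧ y = x0)))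

/-- The lift of a subgraph. -/
def up (A : SimpleGraph V) (v : W) (f : V → W) (x0 x1 x2 y0 y1 y2 : V) (H : SimpleGraph W) :
    SimpleGraph V where
  Adj x y := A.Adj x y ∧ (H.Adj (f x) (f y) ∨ Inn v f H x0 x1 x2 y0 y1 y2 x y)
  symm := ⟨by
    rintro x y ⟨h, h'⟩
    refine ⟨h.symm, h'.imp (fun h => h.symm) ?_⟩
    unfold Inn
    tauto⟩
  loopless := ⟨by
    rintro x ⟨h, -⟩
    exact h.ne rfl⟩

section
include T

lemma fx0 : f x0 = v := (T.fib x0).2 (Or.inl rfl)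
lemma fx1 : f x1 = v := (T.fib x1).2 (Or.inr (Or.inl rfl))
lemma fx2 : f x2 = v := (T.fib x2).2 (Or.inr (Or.inr rfl))

lemma adj_xy (H : SimpleGraph W) (_hH : H ≤ B) (x y : V) (hv : f x ≠ f y) :
    (up A v f x0 x1 x2 y0 y1 y2 H).Adj x y ↔ A.Adj x y ∧ H.Adj (f x) (f y) := by
  have h0 := T.fx0
  have h1 := T.fx1
  have h2 := T.fx2
  show A.Adj x y ∧ (H.Adj (f x) (f y) ∨ Inn v f H x0 x1 x2 y0 y1 y2 x y) ↔ _
  have : ¬ Inn v f H x0 x1 x2 y0 y1 y2 x y := by
    unfold Inn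
    rintro (⟨_, ⟨rfl, rfl⟩ | ⟨rfl, rfl⟩⟩ | ⟨_, ⟨rfl, rfl⟩ | ⟨rfl, rfl⟩⟩ | ⟨_, ⟨rfl, rfl⟩ | ⟨rfl, rfl⟩⟩)
    all_goals exact hv (by simp only [h0, h1, h2])
  tauto

lemma dn_up (H : SimpleGraph W) (hH : H ≤ B) : dn f (up A v f x0 x1 x2 y0 y1 y2 H) = H := by
  ext a b
  constructor
  · rintro ⟨hab, x, y, rfl, rfl, h⟩
    exact ((T.adj_xy H hH x y hab).1 h).2
  · intro h
    obtain ⟨x, y, rfl, rfl, hxy⟩ := T.lift a b (hH h)
    exact ⟨h.ne, x, y, rfl, rfl, (T.adj_xy H hH x y h.ne).2 ⟨hxy, h⟩⟩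

omit T in
lemma up_le (H : SimpleGraph W) : up A v f x0 x1 x2 y0 y1 y2 H ≤ A := fun _ _ h => h.1

lemma dn_le (K : SimpleGraph V) (hK : K ≤ A) : dn f K ≤ B := by
  rintro a b ⟨hab, x, y, rfl, rfl, h⟩
  exact (T.fe x y (hK h)).resolve_left hab

lemma deg_v (H : SimpleGraph W) (hH : H ≤ B) :
    (H.neighborSet v).ncard = 2 ↔ TwoOf (H.Adj v (f y0)) (H.Adj v (f y1)) (H.Adj v (f y2)) :=
  ncard_two_iff _ _ _ _ T.g01 T.g02 T.g12 (fun z hz => (T.nb z).1 (hH hz))

lemma up01 (H : SimpleGraph W) :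
    (up A v f x0 x1 x2 y0 y1 y2 H).Adj x0 x1 ↔ H.Adj v (f y2) := by
  have h0 := T.fx0
  have h1 := T.fx1
  constructor
  · rintro ⟨-, h⟩
    rw [h0, h1] at h
    rcases h with h | h
    · exact absurd rfl h.ne
    · rcases h with ⟨_, h | h⟩ | ⟨_, h | h⟩ | ⟨h, _⟩
      · exact absurd h.1 T.n01
      · exact absurd h.1 T.n02
      · exact absurd h.1 T.n02
      · exact absurd h.2 T.n12
      · exact h
  · intro h
    exact ⟨(T.a0 x1).2 (Or.inl rfl), Or.inr (Or.inr (Or.inr ⟨h, Or.inl ⟨rfl, rfl⟩⟩))⟩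

lemma up20 (H : SimpleGraph W) :
    (up A v f x0 x1 x2 y0 y1 y2 H).Adj x2 x0 ↔ H.Adj v (f y1) := by
  have h0 := T.fx0
  have h2 := T.fx2
  constructor
  · rintro ⟨-, h⟩
    rw [h0, h2] at h
    rcases h with h | h
    · exact absurd rfl h.ne
    · rcases h with ⟨_, h | h⟩ | ⟨h, _⟩ | ⟨_, h | h⟩
      · exact absurd h.1.symm T.n12
      · exact absurd h.2 T.n01
      · exact h
      · exact absurd h.1.symm T.n02
      · exact absurd h.1.symm T.n12
  · intro h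
    exact ⟨(T.a2 x0).2 (Or.inl rfl), Or.inr (Or.inr (Or.inl ⟨h, Or.inl ⟨rfl, rfl⟩⟩))⟩

lemma up12 (H : SimpleGraph W) :
    (up A v f x0 x1 x2 y0 y1 y2 H).Adj x1 x2 ↔ H.Adj v (f y0) := by
  have h1 := T.fx1
  have h2 := T.fx2
  constructor
  · rintro ⟨-, h⟩
    rw [h1, h2] at h
    rcases h with h | h
    · exact absurd rfl h.ne
    · rcases h with ⟨h, _⟩ | ⟨_, h | h⟩ | ⟨_, h | h⟩
      · exact h
      · exact absurd h.1 T.n12
      · exact absurd h.1.symm T.n01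
      · exact absurd h.1.symm T.n01
      · exact absurd h.2.symm T.n02
  · intro h
    exact ⟨(T.a1 x2).2 (Or.inl rfl), Or.inr (Or.inl ⟨h, Or.inl ⟨rfl, rfl⟩⟩)⟩

lemma up_out (H : SimpleGraph W) (hH : H ≤ B) :
    ((up A v f x0 x1 x2 y0 y1 y2 H).Adj x0 y0 ↔ H.Adj v (f y0)) ∧
    ((up A v f x0 x1 x2 y0 y1 y2 H).Adj x1 y1 ↔ H.Adj v (f y1)) ∧
    ((up A v f x0 x1 x2 y0 y1 y2 H).Adj x2 y2 ↔ H.Adj v (f y2)) := by
  have h0 := T.fx0
  have h1 := T.fx1
  have h2 := T.fx2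
  rw [T.adj_xy H hH x0 y0 (by rw [h0]; exact T.f0.symm), T.adj_xy H hH x1 y1
    (by rw [h1]; exact T.f1.symm), T.adj_xy H hH x2 y2 (by rw [h2]; exact T.f2.symm), h0, h1, h2,
    T.a0, T.a1, T.a2]
  simp

lemma up_degv (H : SimpleGraph W) (hH : H ≤ B) :
    (((up A v f x0 x1 x2 y0 y1 y2 H).neighborSet x0).ncard = 2 ↔ (H.neighborSet v).ncard = 2) ∧
    (((up A v f x0 x1 x2 y0 y1 y2 H).neighborSet x1).ncard = 2 ↔ (H.neighborSet v).ncard = 2) ∧
    (((up A v f x0 x1 x2 y0 y1 y2 H).neighborSet x2).ncard = 2 ↔ (H.neighborSet v).ncard = 2) := by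
  have h0 := T.fx0
  have h1 := T.fx1
  have h2 := T.fx2
  have e0 := T.f0
  have e1 := T.f1
  have e2 := T.f2
  have z01 : x0 ≠ y1 := fun h => e1 (by rw [← h, h0])
  have z02 : x0 ≠ y2 := fun h => e2 (by rw [← h, h0])
  have z10 : x1 ≠ y0 := fun h => e0 (by rw [← h, h1])
  have z12 : x1 ≠ y2 := fun h => e2 (by rw [← h, h1])
  have z20 : x2 ≠ y0 := fun h => e0 (by rw [← h, h2])
  have z21 : x2 ≠ y1 := fun h => e1 (by rw [← h, h2])
  have u01 := T.up01 H
  have u20 := T.up20 H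
  have u12 := T.up12 H
  obtain ⟨o0, o1, o2⟩ := T.up_out H hH
  have dv := T.deg_v H hH
  rw [dv]
  clear dv
  generalize hK : up A v f x0 x1 x2 y0 y1 y2 H = K at *
  have hle : K ≤ A := by rw [← hK]; exact up_le H
  have d0 : _ ↔ TwoOf (K.Adj x0 x1) (K.Adj x0 x2) (K.Adj x0 y0) :=
    (ncard_two_iff (K.neighborSet x0) _ _ _ T.n12 z10 z20 (fun z hz => (T.a0 z).1 (hle hz)))
  have d1 : _ ↔ TwoOf (K.Adj x1 x2) (K.Adj x1 x0) (K.Adj x1 y1) :=
    (ncard_two_iff (K.neighborSet x1) _ _ _ T.n02.symm z21 z01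
      (fun z hz => (T.a1 z).1 (hle hz)))
  have d2 : _ ↔ TwoOf (K.Adj x2 x0) (K.Adj x2 x1) (K.Adj x2 y2) :=
    (ncard_two_iff (K.neighborSet x2) _ _ _ T.n01 z02 z12 (fun z hz => (T.a2 z).1 (hle hz)))
  rw [d0, d1, d2, K.adj_comm x0 x2, K.adj_comm x1 x0, K.adj_comm x2 x1, u01, u20, u12, o0, o1, o2]
  exact ⟨twoOf_perm.1, twoOf_perm.2.1, twoOf_perm.2.2⟩

lemma up_deg (H : SimpleGraph W) (hH : H ≤ B) (z : V) :
    ((up A v f x0 x1 x2 y0 y1 y2 H).neighborSet z).ncard = 2 ↔ (H.neighborSet (f z)).ncard = 2 := by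
  by_cases hz : f z = v
  · obtain ⟨c0, c1, c2⟩ := T.up_degv H hH
    rw [hz]
    rcases (T.fib z).1 hz with h | h | h
    · rw [h]; exact c0
    · rw [h]; exact c1
    · rw [h]; exact c2
  · -- the fibre is a single point
    have hne : ∀ q, A.Adj z q → f z ≠ f q := fun q hq h => hq.ne (T.inj z q h hz)
    have him : f '' ((up A v f x0 x1 x2 y0 y1 y2 H).neighborSet z) = H.neighborSet (f z) := by
      ext b
      constructor
      · rintro ⟨q, hq, rfl⟩
        exact ((T.adj_xy H hH z q (hne q hq.1)).1 hq).2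
      · intro hb
        obtain ⟨x, y, hx, rfl, hxy⟩ := T.lift _ _ (hH hb)
        have : z = x := T.inj z x hx.symm hz
        subst this
        exact ⟨y, (T.adj_xy H hH z y (hne y hxy)).2 ⟨hxy, hb⟩, rfl⟩
    have hinj : Set.InjOn f ((up A v f x0 x1 x2 y0 y1 y2 H).neighborSet z) := by
      intro q hq q' hq' h
      exact (T.uniq z q z q' hq.1 hq'.1 rfl h (hne q hq.1)).2
    rw [← him, hinj.ncard_image]

omit T in
lemma reach_dn (K : SimpleGraph V) (x y : V) (h : K.Reachable x y) :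
    (dn f K).Reachable (f x) (f y) := by
  obtain ⟨p⟩ := h
  induction p with
  | nil => exact Reachable.refl _
  | @cons u w t huw p ih =>
    refine Reachable.trans ?_ ih
    by_cases h : f u = f w
    · rw [h]
    · exact Adj.reachable ⟨h, u, w, rfl, rfl, huw⟩

lemma pre_dn (K : SimpleGraph V) (hK : K.Preconnected) : (dn f K).Preconnected := by
  intro a b
  obtain ⟨x, rfl⟩ := T.sur a
  obtain ⟨y, rfl⟩ := T.sur b
  exact reach_dn K x y (hK x y)

lemma pre_up (H : SimpleGraph W) (hH : H ≤ B) (hd : (H.neighborSet v).ncard = 2)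
    (hc : H.Preconnected) : (up A v f x0 x1 x2 y0 y1 y2 H).Preconnected := by
  have h0 := T.fx0
  have h1 := T.fx1
  have h2 := T.fx2
  set K := up A v f x0 x1 x2 y0 y1 y2 H with hKdef
  have c2 : H.Adj v (f y2) → K.Adj x0 x1 := (T.up01 H).2
  have c1 : H.Adj v (f y1) → K.Adj x2 x0 := (T.up20 H).2
  have c0 : H.Adj v (f y0) → K.Adj x1 x2 := (T.up12 H).2
  have r01 : K.Reachable x0 x1 ∧ K.Reachable x0 x2 := by
    rcases (T.deg_v H hH).1 hd with ⟨_, d1, d2⟩ | ⟨d0, _, d2⟩ | ⟨d0, d1, _⟩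
    · exact ⟨(c2 d2).reachable, (c1 d1).symm.reachable⟩
    · exact ⟨(c2 d2).reachable, (c2 d2).reachable.trans (c0 d0).reachable⟩
    · exact ⟨(c1 d1).symm.reachable.trans (c0 d0).symm.reachable, (c1 d1).symm.reachable⟩
  have tri : ∀ x, f x = v → K.Reachable x0 x := by
    intro x hx
    rcases (T.fib x).1 hx with rfl | rfl | rfl
    · exact Reachable.refl _
    · exact r01.1
    · exact r01.2
  have same : ∀ x y, f x = f y → K.Reachable x y := by
    intro x y hxy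
    by_cases h : f x = v
    · exact (tri x h).symm.trans (tri y (by rw [← hxy, h]))
    · rw [T.inj x y hxy h]
  have main : ∀ a b : W, H.Reachable a b → ∀ x y, f x = a → f y = b → K.Reachable x y := by
    rintro a b ⟨p⟩
    induction p with
    | nil => intro x y hx hy; exact same x y (by rw [hx, hy])
    | @cons u w t huw p ih =>
      intro x y hx hy
      obtain ⟨x', y', hx', hy', hxy⟩ := T.lift u w (hH huw)
      have e1 : K.Adj x' y' := (T.adj_xy H hH x' y' (by rw [hx', hy']; exact huw.ne)).2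
        ⟨hxy, by rw [hx', hy']; exact huw⟩
      exact ((same x x' (by rw [hx, hx'])).trans e1.reachable).trans (ih y' y hy' hy)
  intro x y
  exact main (f x) (f y) (hc _ _) x y rfl rfl

/-- A spanning connected 2-regular subgraph uses an inner edge iff it uses the outer edge at the
opposite vertex. -/
lemma inner (K : SimpleGraph V) (hK : K ∈ HS A) :
    (K.Adj x0 y0 ↔ K.Adj x1 x2) ∧ (K.Adj x1 y1 ↔ K.Adj x2 x0) ∧ (K.Adj x2 y2 ↔ K.Adj x0 x1) := by
  obtain ⟨hle, hdeg, hcon⟩ := hK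
  have h0 := T.fx0
  have h1 := T.fx1
  have h2 := T.fx2
  have e0 := T.f0
  have e1 := T.f1
  have e2 := T.f2
  have n01 := T.n01
  have n02 := T.n02
  have n12 := T.n12
  have z01 : x0 ≠ y1 := fun h => e1 (by rw [← h, h0])
  have z02 : x0 ≠ y2 := fun h => e2 (by rw [← h, h0])
  have z10 : x1 ≠ y0 := fun h => e0 (by rw [← h, h1])
  have z12 : x1 ≠ y2 := fun h => e2 (by rw [← h, h1])
  have z20 : x2 ≠ y0 := fun h => e0 (by rw [← h, h2])
  have z21 : x2 ≠ y1 := fun h => e1 (by rw [← h, h2])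
  have d0 : TwoOf (K.Adj x0 x1) (K.Adj x0 x2) (K.Adj x0 y0) :=
    (ncard_two_iff (K.neighborSet x0) _ _ _ n12 z10 z20 (fun z hz => (T.a0 z).1 (hle hz))).1
      (hdeg x0)
  have d1 : TwoOf (K.Adj x1 x2) (K.Adj x1 x0) (K.Adj x1 y1) :=
    (ncard_two_iff (K.neighborSet x1) _ _ _ n02.symm z21 z01
      (fun z hz => (T.a1 z).1 (hle hz))).1 (hdeg x1)
  have d2 : TwoOf (K.Adj x2 x0) (K.Adj x2 x1) (K.Adj x2 y2) :=
    (ncard_two_iff (K.neighborSet x2) _ _ _ n01 z02 z12 (fun z hz => (T.a2 z).1 (hle hz))).1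
      (hdeg x2)
  rw [K.adj_comm x0 x2] at d0
  rw [K.adj_comm x1 x0] at d1
  rw [K.adj_comm x2 x1] at d2
  -- not all outer edges are missing
  have hout : ¬ (¬ K.Adj x0 y0 ∧ ¬ K.Adj x1 y1 ∧ ¬ K.Adj x2 y2) := by
    rintro ⟨m0, m1, m2⟩
    have key : ∀ x y, K.Reachable x y → f x = v → f y = v := by
      rintro x y ⟨p⟩
      induction p with
      | nil => exact id
      | @cons u w t huw p ih =>
        intro hu
        apply ih
        rcases (T.fib u).1 hu with rfl | rfl | rfl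
        · rcases (T.a0 w).1 (hle huw) with rfl | rfl | rfl
          · exact h1
          · exact h2
          · exact absurd huw m0
        · rcases (T.a1 w).1 (hle huw) with rfl | rfl | rfl
          · exact h2
          · exact h0
          · exact absurd huw m1
        · rcases (T.a2 w).1 (hle huw) with rfl | rfl | rfl
          · exact h0
          · exact h1
          · exact absurd huw m2
    exact e0 (key x0 y0 (hcon _ _) h0)
  unfold TwoOf at d0 d1 d2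
  tauto

lemma up_dn (K : SimpleGraph V) (hK : K ∈ HS A) :
    up A v f x0 x1 x2 y0 y1 y2 (dn f K) = K := by
  obtain ⟨i0, i1, i2⟩ := T.inner K hK
  obtain ⟨hle, hdeg, hcon⟩ := hK
  have h0 := T.fx0
  have h1 := T.fx1
  have h2 := T.fx2
  have e0 := T.f0
  have e1 := T.f1
  have e2 := T.f2
  have dadj : ∀ x y, A.Adj x y → f x ≠ f y → ((dn f K).Adj (f x) (f y) ↔ K.Adj x y) := by
    intro x y hxy hne
    constructor
    · rintro ⟨-, x', y', hx, hy, hK⟩
      obtain ⟨rfl, rfl⟩ := T.uniq x y x' y' hxy (hle hK) hx.symm hy.symm hne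
      exact hK
    · intro h
      exact ⟨hne, x, y, rfl, rfl, h⟩
  have k0 := dadj x0 y0 ((T.a0 y0).2 (Or.inr (Or.inr rfl))) (by rw [h0]; exact e0.symm)
  have k1 := dadj x1 y1 ((T.a1 y1).2 (Or.inr (Or.inr rfl))) (by rw [h1]; exact e1.symm)
  have k2 := dadj x2 y2 ((T.a2 y2).2 (Or.inr (Or.inr rfl))) (by rw [h2]; exact e2.symm)
  rw [h0] at k0
  rw [h1] at k1
  rw [h2] at k2
  ext x y
  by_cases hxy : A.Adj x y
  · by_cases hne : f x = f y
    · -- an inner edge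
      have hx : f x = v := by
        by_contra hcon'
        exact hxy.ne (T.inj x y hne hcon')
      have hy : f y = v := by rw [← hne, hx]
      have hdd : ¬ (dn f K).Adj v v := fun h => h.ne rfl
      show A.Adj x y ∧ ((dn f K).Adj (f x) (f y) ∨ Inn v f (dn f K) x0 x1 x2 y0 y1 y2 x y) ↔ _
      rw [hx, hy]
      unfold Inn
      rw [k0, k1, k2, i0, i1, i2]
      have s01 := K.adj_comm x0 x1
      have s12 := K.adj_comm x1 x2
      have s20 := K.adj_comm x2 x0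
      have n01 := T.n01
      have n02 := T.n02
      have n12 := T.n12
      have hxy' := hxy.ne
      rcases (T.fib x).1 hx with rfl | rfl | rfl <;> rcases (T.fib y).1 hy with rfl | rfl | rfl <;>
        grind
    · rw [T.adj_xy (dn f K) (T.dn_le K hle) x y hne, dadj x y hxy hne]
      tauto
  · constructor
    · intro h; exact absurd h.1 hxy
    · intro h; exact absurd (hle h) hxy

lemma up_mem (H : SimpleGraph W) (hH : H ∈ HS B) : up A v f x0 x1 x2 y0 y1 y2 H ∈ HS A := by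
  obtain ⟨hle, hdeg, hcon⟩ := hH
  exact ⟨up_le H, fun z => (T.up_deg H hle z).2 (hdeg _), T.pre_up H hle (hdeg v) hcon⟩

lemma dn_mem (K : SimpleGraph V) (hK : K ∈ HS A) : dn f K ∈ HS B := by
  have hle := T.dn_le K hK.1
  refine ⟨hle, ?_, T.pre_dn K hK.2.2⟩
  intro a
  obtain ⟨x, rfl⟩ := T.sur a
  rw [← T.up_deg (dn f K) hle, T.up_dn K hK]
  exact hK.2.1 x

/-- A triangle replacement preserves the number of spanning connected 2-regular subgraphs. -/
theorem ncard_eq : (HS A).ncard = (HS B).ncard := by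
  have h1 : HS A = up A v f x0 x1 x2 y0 y1 y2 '' HS B := by
    ext K
    constructor
    · intro hK
      exact ⟨dn f K, T.dn_mem K hK, T.up_dn K hK⟩
    · rintro ⟨H, hH, rfl⟩
      exact T.up_mem H hH
  rw [h1]
  apply Set.InjOn.ncard_image
  intro H hH H' hH' h
  rw [← T.dn_up H hH.1, ← T.dn_up H' hH'.1]
  exact congrArg (dn f) h

end

end TS

end Pool.Agent.Helper58.CA
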